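import Mathlib

set_option autoImplicit false

namespace Run7.h716.UP

open MeasureTheory Set

theorem t_UP (p : ℝ) (hp : 0 < p) :
    ∫⁻ z in Metric.ball (0:ℂ) 1, ‖z‖ₑ ^ p = ENNReal.ofReal (2 * Real.pi / (p + 2)) := by
  rw [← lintegral_indicator Metric.isOpen_ball.measurableSet]
  rw [← Complex.lintegral_comp_polarCoord_symm]
  have h1 : ∀ x ∈ polarCoord.target, ENNReal.ofReal x.1 • (Metric.ball (0:ℂ) 1).indicator (fun z => ‖z‖ₑ ^ p) (Complex.polarCoord.symm x) =
      (Ioo (0:ℝ) 1 ×ˢ Ioo (-Real.pi) Real.pi).indicator (fun x : ℝ × ℝ => ENNReal.ofReal (x.1 ^ (p + 1))) x := by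
    intro x hx
    rw [polarCoord_target] at hx
    have hx1 : 0 < x.1 := hx.1
    have hn : ‖Complex.polarCoord.symm x‖ = x.1 := by
      rw [Complex.norm_polarCoord_symm, abs_of_pos hx1]
    by_cases h : x.1 < 1
    · rw [indicator_of_mem, indicator_of_mem]
      · rw [← ofReal_norm_eq_enorm, hn, ENNReal.ofReal_rpow_of_pos hx1, smul_eq_mul,
          ← ENNReal.ofReal_mul hx1.le]
        congr 1
        rw [Real.rpow_add hx1, Real.rpow_one, mul_comm]
      · exact ⟨⟨hx1, h⟩, hx.2⟩
      · rw [mem_ball_zero_iff, hn]; exact h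
    · rw [indicator_of_notMem, indicator_of_notMem, smul_zero]
      · rintro ⟨h2, -⟩; exact h h2.2
      · rw [mem_ball_zero_iff, hn]; exact h
  have hms : MeasurableSet (polarCoord.target) := by
    rw [polarCoord_target]; exact measurableSet_Ioi.prod measurableSet_Ioo
  have hms2 : MeasurableSet (Ioo (0:ℝ) 1 ×ˢ Ioo (-Real.pi) Real.pi) :=
    measurableSet_Ioo.prod measurableSet_Ioo
  rw [setLIntegral_congr_fun hms h1, lintegral_indicator hms2, Measure.restrict_restrict hms2]
  have hint : (Ioo (0:ℝ) 1 ×ˢ Ioo (-Real.pi) Real.pi) ∩ polarCoord.target =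
      Ioo (0:ℝ) 1 ×ˢ Ioo (-Real.pi) Real.pi := by
    rw [polarCoord_target]
    apply inter_eq_left.2
    rintro ⟨a, b⟩ ⟨ha, hb⟩
    exact ⟨ha.1, hb⟩
  rw [hint, Measure.volume_eq_prod, ← Measure.prod_restrict]
  rw [lintegral_prod _ (by fun_prop)]
  simp only [lintegral_const, Measure.restrict_apply MeasurableSet.univ, univ_inter, Real.volume_Ioo]
  rw [lintegral_mul_const _ (by fun_prop)]
  have h2 : ∫⁻ x in Ioo (0:ℝ) 1, ENNReal.ofReal (x ^ (p + 1)) = ENNReal.ofReal (1 / (p + 2)) := by
    rw [← ofReal_integral_eq_lintegral_ofReal]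
    · congr 1
      rw [← integral_Ioc_eq_integral_Ioo, ← intervalIntegral.integral_of_le zero_le_one,
        integral_rpow (Or.inl (by linarith))]
      rw [Real.one_rpow, Real.zero_rpow (by linarith)]
      congr 1
      · ring
      · ring
    · have := (intervalIntegral.intervalIntegrable_rpow (a := 0) (b := 1) (μ := volume) (r := p + 1) (Or.inl (by linarith)))
      rw [intervalIntegrable_iff_integrableOn_Ioo_of_le zero_le_one] at this
      exact this
    · filter_upwards [ae_restrict_mem measurableSet_Ioo] with x hx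
      exact Real.rpow_nonneg hx.1.le _
  rw [h2, ← ENNReal.ofReal_mul (by positivity)]
  congr 1
  field_simp
  ring

end Run7.h716.UP
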